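import Mathlib

set_option autoImplicit false

namespace Pool.Agent.H7.FrCor

/-- A Fréchet space: a complete, Hausdorff, locally convex complex topological vector space whose
uniformity is countably generated (i.e. metrizable). -/
structure FSpace where
  X : Type
  [iG : AddCommGroup X]
  [iM : Module ℂ X]
  [iU : UniformSpace X]
  [iA : IsUniformAddGroup X]
  [iS : ContinuousSMul ℂ X]
  [iL : LocallyConvexSpace ℝ X]
  [iC : CompleteSpace X]
  [iT : T2Space X]
  [iB : (uniformity X).IsCountablyGenerated]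

attribute [instance] FSpace.iG FSpace.iM FSpace.iU FSpace.iA FSpace.iS FSpace.iL FSpace.iC
  FSpace.iT FSpace.iB

/-- A jointly continuous bilinear map `A × X → Y`. -/
structure CBil (A X Y : FSpace) where
  f : A.X → X.X → Y.X
  lin_left : ∀ x, IsLinearMap ℂ fun a => f a x
  lin_right : ∀ a, IsLinearMap ℂ (f a)
  cont : Continuous fun p : A.X × X.X => f p.1 p.2

/-- A Fréchet algebra. -/
structure FAlg where
  A : FSpace
  mul : CBil A A A
  assoc : ∀ a b c, mul.f (mul.f a b) c = mul.f a (mul.f b c)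

/-- A Fréchet left module over a Fréchet algebra. -/
structure FMod (M : FAlg) where
  E : FSpace
  act : CBil M.A E E
  act_mul : ∀ a b x, act.f (M.mul.f a b) x = act.f a (act.f b x)

/-- Continuous linear maps. -/
structure CL (P Q : FSpace) where
  f : P.X → Q.X
  lin : IsLinearMap ℂ f
  cont : Continuous f

/-- `g` is a left inverse of `f`. -/
def LeftInv {P Q : FSpace} (f : CL P Q) (g : CL Q P) : Prop := ∀ x, g.f (f.f x) = x

/-- `g ∘ f = 0`. -/
def CompZero {P Q R : FSpace} (f : CL P Q) (g : CL Q R) : Prop := ∀ x, g.f (f.f x) = 0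

/-- For `P → Q → R` (maps `f`, `g`) with backward maps `s : Q → P`, `t : R → Q`:
`f ∘ s + t ∘ g = id`. -/
def Homotopy {P Q R : FSpace} (f : CL P Q) (g : CL Q R) (s : CL Q P) (t : CL R Q) : Prop :=
  ∀ y, f.f (s.f y) + t.f (g.f y) = y

/-- `f` is a module morphism. -/
def IsMor {M : FAlg} {P Q : FMod M} (f : CL P.E Q.E) : Prop :=
  ∀ a x, f.f (P.act.f a x) = Q.act.f a (f.f x)

/-- Injective Fréchet modules. -/
def IsInj {M : FAlg} (J : FMod M) : Prop :=
  ∀ (Y : FMod M) (φ : CL J.E Y.E), IsMor φ → (∃ ψ, LeftInv φ ψ) → ∃ ψ, IsMor ψ ∧ LeftInv φ ψ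

/-- A coresolution `0 → X → J 0 → J 1 → ⋯`: a complex of Fréchet modules with a contracting
homotopy made of continuous linear maps. -/
structure Cores {M : FAlg} (X : FMod M) where
  J : ℕ → FMod M
  aug : CL X.E (J 0).E
  d : ∀ n, CL (J n).E (J (n + 1)).E
  aug_mor : IsMor aug
  d_mor : ∀ n, IsMor (d n)
  aug_d : CompZero aug (d 0)
  d_d : ∀ n, CompZero (d n) (d (n + 1))
  s0 : CL (J 0).E X.E
  s : ∀ n, CL (J (n + 1)).E (J n).E
  s0_aug : LeftInv aug s0
  htpy_zero : Homotopy aug (d 0) s0 (s 0)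
  htpy_succ : ∀ n, Homotopy (d n) (d (n + 1)) (s n) (s (n + 1))

/-- `X` has an injective coresolution. -/
def HasInjCores {M : FAlg} (X : FMod M) : Prop := ∃ R : Cores X, ∀ n, IsInj (R.J n)

end Pool.Agent.H7.FrCor
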