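import Pool.Agent.H7.FrCor.Defs
import Pool.Agent.H7.FrInj.Proof

set_option autoImplicit false

namespace Pool.Agent.H7.FrCor

open Pool.Agent.H7.FrInj

lemma frechet_of (E : FSpace) : IsFrechetSpace E.X where
  isUniformAddGroup := inferInstance
  continuousSMul := inferInstance
  locallyConvex := inferInstance
  complete := inferInstance
  hausdorff := inferInstance
  countablyGenerated := inferInstance

/-- The space `ℂ[[x]]`. -/
noncomputable def SA : FSpace where
  X := A0

/-- The algebra `xℂ[[x]]`. -/
noncomputable def AA : FAlg where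
  A := SA
  mul :=
    { f := fun a b => M0.mul a b
      lin_left := fun b => (M0.mul.flip b).isLinear
      lin_right := fun a => (M0.mul a).isLinear
      cont := M0.continuous_mul }
  assoc := M0.mul_assoc

noncomputable def toFM (J : FMod AA) : FrechetModule M0 J.E.X where
  isFrechetSpace := frechet_of J.E
  act := LinearMap.mk₂ ℂ J.act.f (fun a b x => (J.act.lin_left x).map_add a b)
    (fun c a x => (J.act.lin_left x).map_smul c a) (fun a x y => (J.act.lin_right a).map_add x y)
    (fun c a x => (J.act.lin_right a).map_smul c x)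
  act_mul := J.act_mul
  continuous_act := J.act.cont

noncomputable def ofFM {Y : Type} [AddCommGroup Y] [Module ℂ Y] [UniformSpace Y]
    (T : FrechetModule M0 Y) : FMod AA :=
  haveI := T.isFrechetSpace.isUniformAddGroup
  haveI := T.isFrechetSpace.continuousSMul
  haveI := T.isFrechetSpace.locallyConvex
  haveI := T.isFrechetSpace.complete
  haveI := T.isFrechetSpace.hausdorff
  haveI := T.isFrechetSpace.countablyGenerated
  { E := { X := Y }
    act :=
      { f := fun a x => T.act a x
        lin_left := fun b => (T.act.flip b).isLinear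
        lin_right := fun a => (T.act a).isLinear
        cont := T.continuous_act }
    act_mul := T.act_mul }

lemma subsingleton_of_inj (J : FMod AA) (h : IsInj J) : Subsingleton J.E.X := by
  apply nonunital_case (toFM J)
  intro Y _ _ _ T φ hφ hψ
  obtain ⟨ψ, hψ⟩ := hψ
  obtain ⟨χ, h1, h2⟩ := h (ofFM T) ⟨φ, φ.toLinearMap.isLinear, φ.continuous⟩
    (fun a x => hφ a x) ⟨⟨ψ, ψ.toLinearMap.isLinear, ψ.continuous⟩, fun x => hψ x⟩
  exact ⟨⟨χ.lin.mk' χ.f, χ.cont⟩, fun a y => h1 a y, fun x => h2 x⟩

end Pool.Agent.H7.FrCor
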